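import Pool.Agent.Lib.MP_edb5be_nt.ND.Iface
import Pool.Agent.Lib.MP_edb5be_nt.LogForm

/-!
KRON: effective Kronecker theorem for `log_2 3` (helper84).
-/

set_option autoImplicit false

namespace Pool.Agent.Lib.MP_edb5be_nt.ND.H84

open Finset Pool.Agent.Lib.MP_0a5adf_nt.TP

theorem th_mul_log : th * Real.log 2 = Real.log 3 := by
  unfold th Real.logb
  have : Real.log 2 ≠ 0 := (Real.log_pos (by norm_num)).ne'
  field_simp

theorem one_le_th : 1 ≤ th := by
  unfold th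
  rw [Real.le_logb_iff_rpow_le (by norm_num) (by norm_num)]
  norm_num

theorem th_le_two : th ≤ 2 := by
  unfold th
  rw [Real.logb_le_iff_le_rpow (by norm_num) (by norm_num)]
  norm_num

theorem kron : KronStatement := by
  refine ⟨40000 * 2 ^ 18, by norm_num, ?_⟩
  intro Q s hQ hs0 hs1
  set n : ℕ := ⌈Q⌉₊ with hn
  have hn0 : 0 < n := Nat.ceil_pos.mpr (by linarith)
  have hnQ : Q ≤ n := Nat.le_ceil Q
  have hn2 : (n : ℝ) ≤ 2 * Q := by
    have := Nat.ceil_lt_add_one (show 0 ≤ Q by linarith)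
    rw [← hn] at this
    linarith
  obtain ⟨j, k, hk0, hkn, hjk⟩ := Real.exists_int_int_abs_mul_sub_le th hn0
  have hk1 : (1 : ℤ) ≤ k := hk0
  have hk1' : (1 : ℝ) ≤ k := by exact_mod_cast hk1
  have hkn' : (k : ℝ) ≤ n := by exact_mod_cast hkn
  have hlog := log_form j k hk1
  have hl2 : Real.log 2 ≤ 1 := by
    have := Real.log_two_lt_d9
    linarith
  have hl20 : 0 < Real.log 2 := Real.log_pos (by norm_num)
  set κ : ℝ := |(k : ℝ) * th - j| with hκ
  have hκlow : 1 / (20000 * (k : ℝ) ^ 17) ≤ κ := by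
    refine hlog.trans ?_
    have h1 : (j : ℝ) * Real.log 2 - k * Real.log 3 = -(Real.log 2 * (k * th - j)) := by
      rw [← th_mul_log]; ring
    rw [h1, abs_neg, abs_mul, abs_of_pos hl20, hκ]
    exact mul_le_of_le_one_left (abs_nonneg _) hl2
  have hκ0 : 0 < κ := lt_of_lt_of_le (by positivity) hκlow
  have hκQ : κ ≤ 1 / Q := by
    refine hjk.trans ?_
    apply one_div_le_one_div_of_le (by linarith)
    linarith
  obtain ⟨σ, hσ, hσκ⟩ : ∃ σ : ℤ, |(σ : ℝ)| = 1 ∧ κ = σ * ((k : ℝ) * th - j) := by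
    rcases le_or_gt 0 ((k : ℝ) * th - j) with h | h
    · exact ⟨1, by norm_num, by rw [hκ, abs_of_nonneg h]; push_cast; ring⟩
    · exact ⟨-1, by norm_num, by rw [hκ, abs_of_neg h]; push_cast; ring⟩
  set r : ℕ := ⌊s / κ⌋₊ with hr
  have hr1 : (r : ℝ) ≤ s / κ := Nat.floor_le (by positivity)
  have hr2 : s / κ < r + 1 := Nat.lt_floor_add_one _
  have hr3 : (r : ℝ) * κ ≤ s := by
    rwa [le_div_iff₀ hκ0] at hr1
  have hr4 : s < (r + 1) * κ := by
    rwa [div_lt_iff₀ hκ0] at hr2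
  have hr5 : (r : ℝ) ≤ 20000 * (k : ℝ) ^ 17 := by
    refine hr1.trans ?_
    rw [div_le_iff₀ hκ0]
    have h2 : 1 ≤ 20000 * (k : ℝ) ^ 17 * κ := by
      rw [div_le_iff₀ (by positivity)] at hκlow
      linarith
    linarith
  have hrk : (r : ℝ) * k ≤ 20000 * 2 ^ 18 * Q ^ 18 := by
    calc (r : ℝ) * k ≤ 20000 * (k : ℝ) ^ 17 * k := by gcongr
      _ = 20000 * (k : ℝ) ^ 18 := by ring
      _ ≤ 20000 * (2 * Q) ^ 18 := by
          gcongr
          linarith
      _ = 20000 * 2 ^ 18 * Q ^ 18 := by ring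
  have hQ18 : (0 : ℝ) ≤ Q ^ 18 := by positivity
  have hr0 : (0 : ℝ) ≤ r := Nat.cast_nonneg r
  refine ⟨-(r * σ * k), r * σ * (2 * k - j), ?_, ?_, ?_⟩
  · push_cast
    rw [abs_neg, abs_mul, abs_mul, hσ, abs_of_nonneg hr0, abs_of_nonneg (by linarith : (0 : ℝ) ≤ k)]
    nlinarith [hrk, hQ18]
  · push_cast
    rw [abs_mul, abs_mul, hσ, abs_of_nonneg hr0]
    have h3 : |2 * (k : ℝ) - j| ≤ 2 * k := by
      have h4 : 2 * (k : ℝ) - j = k * (2 - th) + (k * th - j) := by ring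
      rw [h4]
      refine (abs_add_le _ _).trans ?_
      have h5 : |(k : ℝ) * (2 - th)| ≤ k := by
        rw [abs_of_nonneg (mul_nonneg (by linarith) (by linarith [th_le_two]))]
        nlinarith [one_le_th]
      have h6 : |(k : ℝ) * th - j| ≤ 1 := by
        rw [← hκ]
        refine hκQ.trans ?_
        rw [div_le_one (by linarith)]
        exact hQ
      linarith
    calc (r : ℝ) * 1 * |2 * (k : ℝ) - j| ≤ r * 1 * (2 * k) := by gcongr
      _ = 2 * (r * k) := by ring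
      _ ≤ 2 * (20000 * 2 ^ 18 * Q ^ 18) := by gcongr
      _ = 40000 * 2 ^ 18 * Q ^ 18 := by ring
  · have h7 : ((-(r * σ * k) : ℤ) : ℝ) * (2 - th) + ((r * σ * (2 * k - j) : ℤ) : ℝ) - s
        = r * κ - s := by
      rw [hσκ]; push_cast; ring
    rw [h7, abs_of_nonpos (by linarith)]
    have : -((r : ℝ) * κ - s) ≤ κ := by linarith
    exact this.trans hκQ

end Pool.Agent.Lib.MP_edb5be_nt.ND.H84
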